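import Pool.Agent.H215R2.MT.Defs

/-! ALG: gap inequality for algebraic elements. -/

namespace H215MT

open H215EZ

universe u

/-- the expectation as a linear map -/
noncomputable def ALG_ex {M : Type u} [CStarAlgebra M] {τ : M →ₗ[ℂ] ℂ} {P : StarSubalgebra ℂ M}
    {r : ℕ} (Λ : Prt τ P r) : M →ₗ[ℂ] M where
  toFun := Λ.ex
  map_add' x y := by
    simp only [Prt.ex, mul_add, map_add, add_div, add_smul, Finset.sum_add_distrib]
  map_smul' c x := by
    simp only [Prt.ex, mul_smul_comm, map_smul, smul_eq_mul, mul_div_assoc, mul_smul,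
      Finset.smul_sum, RingHom.id_apply]

theorem ALG_one {M : Type u} [CStarAlgebra M] {τ : M →ₗ[ℂ] ℂ} {P Q : StarSubalgebra ℂ M}
    (hT : Tens τ P Q) {F : Finset M} {C κ η' : ℝ} (hF : ∀ a ∈ F, a ∈ P) {r : ℕ} (Λ : Prt τ P r)
    {m : ℕ} (p q a : Fin m → M) (hq : ∀ j, q j ∈ Q)
    (hgram : ∀ T : M →ₗ[ℂ] M, (∀ z ∈ P, T z ∈ P) →
      n2 τ (∑ j, T (p j) * q j) ^ 2 = ∑ k, n2 τ (T (a k)) ^ 2)
    (hk : ∀ k, n2 τ (a k - Λ.ex (a k)) ^ 2 ≤
      C * ∑ z ∈ F, n2 τ (z * a k - a k * z) ^ 2 + κ * n2 τ (a k) ^ 2 + η') :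
    n2 τ (∑ j, p j * q j - ∑ j, Λ.ex (p j) * q j) ^ 2 ≤
      C * ∑ z ∈ F, n2 τ (z * (∑ j, p j * q j) - (∑ j, p j * q j) * z) ^ 2 +
        κ * n2 τ (∑ j, p j * q j) ^ 2 + m * η' := by
  have e1 : n2 τ (∑ j, p j * q j - ∑ j, Λ.ex (p j) * q j) ^ 2 =
      ∑ k, n2 τ (a k - Λ.ex (a k)) ^ 2 := by
    have h := hgram (LinearMap.id - ALG_ex Λ) ?_
    · have h1 : ∑ j, (LinearMap.id - ALG_ex Λ : M →ₗ[ℂ] M) (p j) * q j =
          ∑ j, p j * q j - ∑ j, Λ.ex (p j) * q j := by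
        rw [← Finset.sum_sub_distrib]
        apply Finset.sum_congr rfl
        intro j _
        exact sub_mul _ _ _
      rw [h1] at h
      exact h
    · intro z hz
      have h2 : Λ.ex z ∈ P := sum_mem fun k _ => P.smul_mem (Λ.mem k) _
      exact sub_mem hz h2
  have e2 : ∀ z ∈ F, n2 τ (z * (∑ j, p j * q j) - (∑ j, p j * q j) * z) ^ 2 =
      ∑ k, n2 τ (z * a k - a k * z) ^ 2 := by
    intro z hz
    have hzP := hF z hz
    have h := hgram (LinearMap.mulLeft ℂ z - LinearMap.mulRight ℂ z) ?_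
    · have h1 : ∑ j, (LinearMap.mulLeft ℂ z - LinearMap.mulRight ℂ z : M →ₗ[ℂ] M) (p j) * q j =
          z * (∑ j, p j * q j) - (∑ j, p j * q j) * z := by
        rw [Finset.mul_sum, Finset.sum_mul, ← Finset.sum_sub_distrib]
        apply Finset.sum_congr rfl
        intro j _
        have hc := hT.comm z hzP (q j) (hq j)
        show (z * p j - p j * z) * q j = z * (p j * q j) - p j * q j * z
        rw [sub_mul, mul_assoc (p j) z (q j), hc]
        simp only [mul_assoc]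
      rw [h1] at h
      exact h
    · intro w hw
      exact sub_mem (mul_mem hzP hw) (mul_mem hw hzP)
  have e3 : n2 τ (∑ j, p j * q j) ^ 2 = ∑ k, n2 τ (a k) ^ 2 :=
    hgram LinearMap.id fun z hz => hz
  rw [e1, Finset.sum_congr rfl e2, e3]
  calc ∑ k, n2 τ (a k - Λ.ex (a k)) ^ 2
      ≤ ∑ k, (C * ∑ z ∈ F, n2 τ (z * a k - a k * z) ^ 2 + κ * n2 τ (a k) ^ 2 + η') :=
        Finset.sum_le_sum fun k _ => hk k
    _ = _ := by
      rw [Finset.sum_add_distrib, Finset.sum_add_distrib, ← Finset.mul_sum, ← Finset.mul_sum,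
        Finset.sum_comm, Finset.sum_const, Finset.card_univ, Fintype.card_fin, nsmul_eq_mul]

theorem t_ALG (hGRAM : N_GRAM.{u}) : N_ALG.{u} := by
  classical
  intro M _ τ P Q hT hA κ hκ
  obtain ⟨F, C, hF, hC, hG⟩ := hA κ hκ
  refine ⟨F, C, hF, hC, ?_⟩
  intro m m' p q p' q' hp hq hp' hq' η hη
  obtain ⟨a, ha, hgram⟩ := hGRAM M τ P Q hT m p q hp hq
  obtain ⟨b, hb, hgram'⟩ := hGRAM M τ P Q hT m' p' q' hp' hq'
  have hη' : 0 < η / ((m : ℝ) + m' + 1) := by positivity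
  obtain ⟨r, Λ, hΛ⟩ := hG (Finset.univ.image a ∪ Finset.univ.image b) (η / ((m : ℝ) + m' + 1))
    (by
      intro x hx
      rcases Finset.mem_union.1 hx with h | h
      · obtain ⟨k, _, rfl⟩ := Finset.mem_image.1 h
        exact ha k
      · obtain ⟨k, _, rfl⟩ := Finset.mem_image.1 h
        exact hb k) hη'
  have hm : (m : ℝ) * (η / ((m : ℝ) + m' + 1)) ≤ η := by
    rw [mul_div_assoc', div_le_iff₀ (by positivity)]
    have : (0 : ℝ) ≤ m' := by positivity
    nlinarith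
  have hm' : (m' : ℝ) * (η / ((m : ℝ) + m' + 1)) ≤ η := by
    rw [mul_div_assoc', div_le_iff₀ (by positivity)]
    have : (0 : ℝ) ≤ m := by positivity
    nlinarith
  refine ⟨r, Λ, ?_, ?_⟩
  · have h := ALG_one hT hF Λ p q a hq hgram (fun k => hΛ (a k)
      (Finset.mem_union_left _ (Finset.mem_image_of_mem _ (Finset.mem_univ k))))
    linarith
  · have h := ALG_one hT hF Λ p' q' b hq' hgram' (fun k => hΛ (b k)
      (Finset.mem_union_right _ (Finset.mem_image_of_mem _ (Finset.mem_univ k))))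
    linarith

end H215MT
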