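import Pool.Agent.H215R2.MT.Defs

namespace H215MT

universe u

theorem t_CNT : N_CNT := by
  intro r t c D u c₀ ε₀ ht htsum hc hu hε hc₀ hD hlt hsum
  by_contra hcon
  push Not at hcon
  have hε2 : 0 < ε₀ ^ 2 := by positivity
  have hterm : ∀ k, t k * c k ^ 2 ≤ t k * c₀ ^ 2 + 4 / ε₀ ^ 2 * (t k * u k) := by
    intro k
    have h1 : c k ^ 2 ≤ c₀ ^ 2 + 4 / ε₀ ^ 2 * u k := by
      by_cases hk : u k < ε₀ ^ 2
      · have h2 := hcon k hk
        have h3 : c k ^ 2 ≤ c₀ ^ 2 := pow_le_pow_left₀ (hc k).1 h2.le 2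
        have h4 : 0 ≤ 4 / ε₀ ^ 2 * u k := mul_nonneg (by positivity) (hu k)
        linarith
      · have h2 : ε₀ ^ 2 ≤ u k := not_lt.1 hk
        have h3 : c k ^ 2 ≤ 4 := by
          have h4 := pow_le_pow_left₀ (hc k).1 (hc k).2 2
          linarith
        have h5 : 4 ≤ 4 / ε₀ ^ 2 * u k := by
          rw [div_mul_eq_mul_div, le_div_iff₀ hε2]
          linarith
        have h6 : 0 ≤ c₀ ^ 2 := sq_nonneg _
        linarith
    have h2 := mul_le_mul_of_nonneg_left h1 (ht k).le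
    calc t k * c k ^ 2 ≤ t k * (c₀ ^ 2 + 4 / ε₀ ^ 2 * u k) := h2
      _ = t k * c₀ ^ 2 + 4 / ε₀ ^ 2 * (t k * u k) := by ring
  have h1 : ∑ k, t k * c k ^ 2 ≤ c₀ ^ 2 + 4 / ε₀ ^ 2 * D := by
    calc ∑ k, t k * c k ^ 2 ≤ ∑ k, (t k * c₀ ^ 2 + 4 / ε₀ ^ 2 * (t k * u k)) :=
          Finset.sum_le_sum fun k _ => hterm k
      _ = (∑ k, t k) * c₀ ^ 2 + 4 / ε₀ ^ 2 * ∑ k, t k * u k := by
          rw [Finset.sum_add_distrib, Finset.sum_mul, Finset.mul_sum]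
      _ ≤ c₀ ^ 2 + 4 / ε₀ ^ 2 * D := by
          rw [htsum, one_mul]
          have : 0 ≤ 4 / ε₀ ^ 2 := by positivity
          have := mul_le_mul_of_nonneg_left hD this
          linarith
  have h2 : c₀ ^ 2 ≤ 4 / ε₀ ^ 2 * D := by linarith
  rw [div_mul_eq_mul_div, le_div_iff₀ hε2] at h2
  linarith

end H215MT
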