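import Pool.Agent.H215R2.MT.Defs

/-!
Project MT, task EXP: the map of a partition on `M`.
-/

namespace H215MT

open H215EZ

universe u

theorem t_EXP (hSUM : N_SUM.{u}) : N_EXP.{u} := by
  intro M _ τ P Q hT r Λ
  obtain ⟨hpos, hone, hS⟩ := hSUM M τ P Q hT r Λ
  have hee : ∀ k, Λ.e k * Λ.e k = Λ.e k := by
    intro k; rw [Λ.mul, if_pos rfl]
  choose S hS1 hS2 using fun k => hT.slice (Λ.e k) (Λ.mem k) (Λ.sa k) (hee k) (Λ.ne k)
  have hnsq : ∀ x : M, n2 τ x ^ 2 = (τ (star x * x)).re := by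
    intro x
    have h3 := (t_BAS.{u} M τ hT.tr).2.2.1 x
    have h4 := congrArg Complex.re h3
    rwa [Complex.ofReal_re] at h4
  have hnn : ∀ x : M, 0 ≤ n2 τ x := fun x => Real.sqrt_nonneg _
  have hE : ∀ x, (∑ k, (LinearMap.mulLeft ℂ (Λ.e k)).comp (S k)) x =
      ∑ k, Λ.e k * S k x := by
    intro x
    rw [LinearMap.sum_apply]
    rfl
  refine ⟨∑ k, (LinearMap.mulLeft ℂ (Λ.e k)).comp (S k),
    ⟨fun x => ⟨fun k => S k x, fun k => ⟨(hS1 k x).1, (hS1 k x).2.1⟩, hE x⟩, ?_, ?_⟩⟩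
  · intro x
    have h1 : n2 τ (∑ k, Λ.e k * S k x) ^ 2 ≤ n2 τ x ^ 2 := by
      rw [((hS (fun k => S k x) (fun k => (hS1 k x).1)).1)]
      calc ∑ k, (τ (Λ.e k)).re * n2 τ (S k x) ^ 2 ≤ ∑ k, n2 τ (Λ.e k * x) ^ 2 :=
            Finset.sum_le_sum (fun k _ => (hS1 k x).2.2)
        _ = ∑ k, (τ (star x * (Λ.e k * x))).re := by
            apply Finset.sum_congr rfl
            intro k _
            rw [hnsq, star_mul, Λ.sa, mul_assoc, ← mul_assoc (Λ.e k) (Λ.e k) x, hee]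
        _ = (τ (star x * x)).re := by
            rw [← Complex.re_sum, ← map_sum, ← Finset.mul_sum, ← Finset.sum_mul, Λ.sum, one_mul]
        _ = n2 τ x ^ 2 := (hnsq x).symm
    rw [hE]
    exact (pow_le_pow_iff_left₀ (hnn _) (hnn _) two_ne_zero).1 h1
  · intro p hp q hq
    rw [hE]
    unfold Prt.ex
    rw [Finset.sum_mul]
    apply Finset.sum_congr rfl
    intro k _
    rw [hS2 k p hp q hq, smul_mul_assoc, mul_smul_comm]

end H215MT
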