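import Pool.Agent.H215R2.MT.Defs

/-!
Project MT, task GAP: the gap inequality on `M`.
-/

namespace H215MT

open H215EZ

universe u

namespace GAP

theorem delta {ι : Type*} (F : Finset ι) (C κ X η : ℝ) (A na : ι → ℝ) (hC : 0 ≤ C)
    (hκ : 0 ≤ κ) (hη : 0 < η) :
    ∀ᶠ δ in nhds (0 : ℝ),
      (Real.sqrt (C * ∑ a ∈ F, (A a + 2 * na a * δ) ^ 2 + κ * (X + δ) ^ 2 + η / 2) + 2 * δ) ^ 2 <
        C * ∑ a ∈ F, A a ^ 2 + κ * X ^ 2 + η := by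
  have hc : Continuous (fun δ : ℝ =>
      (Real.sqrt (C * ∑ a ∈ F, (A a + 2 * na a * δ) ^ 2 + κ * (X + δ) ^ 2 + η / 2) +
        2 * δ) ^ 2) := by
    fun_prop
  have hS : 0 ≤ ∑ a ∈ F, A a ^ 2 := Finset.sum_nonneg fun a _ => sq_nonneg _
  have h0 : (fun δ : ℝ =>
      (Real.sqrt (C * ∑ a ∈ F, (A a + 2 * na a * δ) ^ 2 + κ * (X + δ) ^ 2 + η / 2) +
        2 * δ) ^ 2) 0 < C * ∑ a ∈ F, A a ^ 2 + κ * X ^ 2 + η := by
    have h1 : 0 ≤ C * ∑ a ∈ F, A a ^ 2 + κ * X ^ 2 + η / 2 := by positivity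
    simp only [mul_zero, add_zero]
    rw [Real.sq_sqrt h1]
    linarith
  exact hc.continuousAt.eventually_lt continuousAt_const h0

theorem one {M : Type u} [CStarAlgebra M] {τ : M →ₗ[ℂ] ℂ} (hτ : IsTrSt τ) (F : Finset M)
    (C κ η δ : ℝ) (hC : 0 ≤ C) (hκ : 0 ≤ κ) (x z : M) (E : M →ₗ[ℂ] M)
    (hE : ∀ x, n2 τ (E x) ≤ n2 τ x) (hδ0 : 0 ≤ δ) (hz : n2 τ (x - z) ≤ δ)
    (hδ : (Real.sqrt (C * ∑ a ∈ F, (n2 τ (a * x - x * a) + 2 * ‖a‖ * δ) ^ 2 +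
        κ * (n2 τ x + δ) ^ 2 + η / 2) + 2 * δ) ^ 2 <
        C * ∑ a ∈ F, n2 τ (a * x - x * a) ^ 2 + κ * n2 τ x ^ 2 + η)
    (hA : n2 τ (z - E z) ^ 2 ≤
      C * ∑ a ∈ F, n2 τ (a * z - z * a) ^ 2 + κ * n2 τ z ^ 2 + η / 2) :
    n2 τ (x - E x) ^ 2 ≤ C * ∑ a ∈ F, n2 τ (a * x - x * a) ^ 2 + κ * n2 τ x ^ 2 + η := by
  obtain ⟨-, -, -, htri, hsm, -, -, hl, hr, -, -⟩ := t_BAS.{u} M τ hτ
  have hnn : ∀ x, 0 ≤ n2 τ x := fun x => Real.sqrt_nonneg _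
  have hneg : ∀ x, n2 τ (-x) = n2 τ x := by
    intro x
    have h := hsm (-1) x
    simpa using h
  have hd : ∀ a, n2 τ (a * (x - z)) ≤ ‖a‖ * δ := fun a =>
    (hl a _).trans (mul_le_mul_of_nonneg_left hz (norm_nonneg _))
  have hd' : ∀ a, n2 τ ((x - z) * a) ≤ ‖a‖ * δ := fun a =>
    (hr a _).trans (mul_le_mul_of_nonneg_left hz (norm_nonneg _))
  have h1 : n2 τ z ≤ n2 τ x + δ := by
    have h := htri x (-(x - z))
    rw [hneg] at h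
    have e : x + -(x - z) = z := by abel
    rw [e] at h
    linarith
  have h2 : ∀ a : M, n2 τ (a * z - z * a) ≤ n2 τ (a * x - x * a) + 2 * ‖a‖ * δ := by
    intro a
    have e : a * z - z * a = (a * x - x * a) + (-(a * (x - z)) + (x - z) * a) := by
      noncomm_ring
    have h3 := htri (a * x - x * a) (-(a * (x - z)) + (x - z) * a)
    have h4 := htri (-(a * (x - z))) ((x - z) * a)
    rw [hneg] at h4
    rw [e]
    have h5 := hd a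
    have h6 := hd' a
    linarith
  have h3 : n2 τ (x - E x) ≤ n2 τ (z - E z) + 2 * δ := by
    have e : x - E x = (z - E z) + ((x - z) + -(E (x - z))) := by
      rw [map_sub]; abel
    have h4 := htri (z - E z) ((x - z) + -(E (x - z)))
    have h5 := htri (x - z) (-(E (x - z)))
    rw [hneg] at h5
    have h6 := hE (x - z)
    rw [e]
    linarith
  have h4 : n2 τ (z - E z) ≤ Real.sqrt (C * ∑ a ∈ F, (n2 τ (a * x - x * a) + 2 * ‖a‖ * δ) ^ 2 +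
        κ * (n2 τ x + δ) ^ 2 + η / 2) := by
    apply Real.le_sqrt_of_sq_le
    refine hA.trans ?_
    have h5 : ∑ a ∈ F, n2 τ (a * z - z * a) ^ 2 ≤
        ∑ a ∈ F, (n2 τ (a * x - x * a) + 2 * ‖a‖ * δ) ^ 2 :=
      Finset.sum_le_sum fun a _ => pow_le_pow_left₀ (hnn _) (h2 a) 2
    have h6 : n2 τ z ^ 2 ≤ (n2 τ x + δ) ^ 2 := pow_le_pow_left₀ (hnn _) h1 2
    have h7 := mul_le_mul_of_nonneg_left h5 hC
    have h8 := mul_le_mul_of_nonneg_left h6 hκ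
    linarith
  refine le_trans (pow_le_pow_left₀ (hnn _) ?_ 2) hδ.le
  linarith

end GAP

/-- the gap inequality on `M` -/
theorem t_GAP (hALG : N_ALG.{u}) (hEXP : N_EXP.{u}) : N_GAP.{u} := by
  intro M _ τ P Q hT hG κ hκ
  obtain ⟨F, C, hF, hC, h⟩ := hALG M τ P Q hT hG κ hκ
  refine ⟨F, C, hF, hC, fun x y η hη => ?_⟩
  have hev := (GAP.delta F C κ (n2 τ x) η (fun a => n2 τ (a * x - x * a)) (fun a => ‖a‖)
    hC hκ.le hη).and (GAP.delta F C κ (n2 τ y) η (fun a => n2 τ (a * y - y * a)) (fun a => ‖a‖)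
    hC hκ.le hη)
  have hev2 : ∀ᶠ δ in nhdsWithin (0 : ℝ) (Set.Ioi 0), _ := hev.filter_mono nhdsWithin_le_nhds
  obtain ⟨δ, ⟨hx, hy⟩, hδ⟩ := (hev2.and self_mem_nhdsWithin).exists
  have hδ0 : 0 < δ := hδ
  obtain ⟨m, p, q, hp, hq, hz⟩ := hT.dense x δ hδ0
  obtain ⟨m', p', q', hp', hq', hz'⟩ := hT.dense y δ hδ0
  obtain ⟨r, Λ, h1, h2⟩ := h m m' p q p' q' hp hq hp' hq' (η / 2) (half_pos hη)
  obtain ⟨E, hE⟩ := hEXP M τ P Q hT r Λ
  refine ⟨r, Λ, E, hE, ?_, ?_⟩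
  · have e : E (∑ j, p j * q j) = ∑ j, Λ.ex (p j) * q j := by
      rw [map_sum]
      exact Finset.sum_congr rfl fun j _ => hE.ten _ (hp j) _ (hq j)
    refine GAP.one hT.tr F C κ η δ hC hκ.le x _ E hE.le hδ0.le hz hx ?_
    rw [e]
    exact h1
  · have e : E (∑ j, p' j * q' j) = ∑ j, Λ.ex (p' j) * q' j := by
      rw [map_sum]
      exact Finset.sum_congr rfl fun j _ => hE.ten _ (hp' j) _ (hq' j)
    refine GAP.one hT.tr F C κ η δ hC hκ.le y _ E hE.le hδ0.le hz' hy ?_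
    rw [e]
    exact h2

end H215MT
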