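import Pool.Agent.H215R2.MT.Defs

set_option autoImplicit false

namespace H215MT
open H215EZ
open scoped ComplexOrder Matrix MatrixOrder
universe u

theorem t_GRAM : N_GRAM.{u} := by
  intro M _ τ P Q hT m p q hp hq
  classical
  obtain ⟨-, hherm, hsq, -⟩ := H215EZ.t_BAS.{u} M τ hT.tr
  let G : Matrix (Fin m) (Fin m) ℂ := fun i j => τ (star (q i) * q j)
  have hGh : G.IsHermitian := by
    ext i j
    show star (τ (star (q j) * q i)) = τ (star (q i) * q j)
    have := hherm (star (q j) * q i)
    rw [star_mul, star_star] at this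
    rw [this]; rfl
  have hG : G.PosSemidef := by
    refine Matrix.PosSemidef.of_dotProduct_mulVec_nonneg hGh ?_
    intro c
    have : star c ⬝ᵥ (G *ᵥ c) = τ (star (∑ j, c j • q j) * (∑ j, c j • q j)) := by
      rw [star_sum, Finset.sum_mul, map_sum]
      simp only [dotProduct, Matrix.mulVec]
      refine Finset.sum_congr rfl fun i _ => ?_
      rw [Finset.mul_sum, Finset.mul_sum, map_sum]
      refine Finset.sum_congr rfl fun j _ => ?_
      rw [star_smul, smul_mul_smul_comm, map_smul, smul_eq_mul]
      show star (c i) * (τ (star (q i) * q j) * c j) = _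
      ring
    rw [this]; exact hT.tr.nonneg _
  obtain ⟨R, hR⟩ : ∃ R : Matrix (Fin m) (Fin m) ℂ, G = Rᴴ * R := by
    obtain ⟨R, hR⟩ := CStarAlgebra.nonneg_iff_eq_star_mul_self.mp hG.nonneg
    exact ⟨R, hR⟩
  have hGR : ∀ i j, τ (star (q i) * q j) = ∑ k, star (R k i) * R k j := by
    intro i j
    have : G i j = (Rᴴ * R) i j := by rw [← hR]
    rw [Matrix.mul_apply] at this
    exact this
  refine ⟨fun k => ∑ j, R k j • p j, fun k => sum_mem fun j _ => P.smul_mem (hp j) _, ?_⟩
  intro T hTP
  have key : ((n2 τ (∑ j, T (p j) * q j) ^ 2 : ℝ) : ℂ) =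
      ((∑ k, n2 τ (T (∑ j, R k j • p j)) ^ 2 : ℝ) : ℂ) := by
    rw [Complex.ofReal_sum]
    simp only [hsq]
    have h1 : τ (star (∑ j, T (p j) * q j) * ∑ j, T (p j) * q j) =
        ∑ i, ∑ j, ∑ k, (star (R k i) * R k j) * τ (star (T (p i)) * T (p j)) := by
      rw [star_sum, Finset.sum_mul, map_sum]
      refine Finset.sum_congr rfl fun i _ => ?_
      rw [Finset.mul_sum, map_sum]
      refine Finset.sum_congr rfl fun j _ => ?_
      rw [← Finset.sum_mul, ← hGR i j, star_mul]
      have hPi : star (T (p i)) ∈ P := star_mem (hTP _ (hp i))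
      have hPj : T (p j) ∈ P := hTP _ (hp j)
      have hPij : star (T (p i)) * T (p j) ∈ P := mul_mem hPi hPj
      have hQi : star (q i) ∈ Q := star_mem (hq i)
      have e1 : star (q i) * star (T (p i)) * (T (p j) * q j) =
          (star (T (p i)) * T (p j)) * (star (q i) * q j) := by
        rw [show star (q i) * star (T (p i)) * (T (p j) * q j) =
          (star (q i) * (star (T (p i)) * T (p j))) * q j by simp only [mul_assoc],
          ← hT.comm _ hPij _ hQi]
        simp only [mul_assoc]
      rw [e1, hT.mul _ hPij _ (mul_mem hQi (hq j)), mul_comm]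
    have h2 : ∀ k, τ (star (T (∑ j, R k j • p j)) * T (∑ j, R k j • p j)) =
        ∑ i, ∑ j, (star (R k i) * R k j) * τ (star (T (p i)) * T (p j)) := by
      intro k
      rw [map_sum, star_sum, Finset.sum_mul, map_sum]
      refine Finset.sum_congr rfl fun i _ => ?_
      rw [Finset.mul_sum, map_sum]
      refine Finset.sum_congr rfl fun j _ => ?_
      rw [map_smul, map_smul, star_smul, smul_mul_smul_comm, map_smul, smul_eq_mul]
    rw [h1]
    simp only [h2]
    symm
    rw [Finset.sum_comm]
    refine Finset.sum_congr rfl fun i _ => ?_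
    rw [Finset.sum_comm]
  exact_mod_cast key

end H215MT
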