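import Pool.Agent.H215R2.MT.Defs

/-!
Project MT, task SUM: orthogonal sums.
-/

open scoped ComplexOrder

namespace H215MT

open H215EZ

universe u

namespace SUM

variable {M : Type u} [CStarAlgebra M] {τ : M →ₗ[ℂ] ℂ} {P Q : StarSubalgebra ℂ M}

theorem mulsum (hT : Tens τ P Q) {r : ℕ} (Λ : Prt τ P r) (w v : Fin r → M)
    (hw : ∀ k, w k ∈ Q) :
    (∑ k, Λ.e k * w k) * (∑ k, Λ.e k * v k) = ∑ k, Λ.e k * (w k * v k) := by
  rw [Finset.sum_mul_sum]
  refine Finset.sum_congr rfl fun k _ => ?_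
  have h : ∀ l, Λ.e k * w k * (Λ.e l * v l) = if k = l then Λ.e k * (w k * v l) else 0 := by
    intro l
    have h1 : Λ.e k * w k * (Λ.e l * v l) = (Λ.e k * Λ.e l) * (w k * v l) := by
      calc Λ.e k * w k * (Λ.e l * v l) = Λ.e k * (w k * Λ.e l) * v l := by
            simp only [mul_assoc]
        _ = Λ.e k * (Λ.e l * w k) * v l := by rw [hT.comm (Λ.e l) (Λ.mem l) (w k) (hw k)]
        _ = _ := by simp only [mul_assoc]
    rw [h1, Λ.mul]
    split_ifs <;> simp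
  simp only [h, Finset.sum_ite_eq, Finset.mem_univ, if_true]

theorem starsum (hT : Tens τ P Q) {r : ℕ} (Λ : Prt τ P r) (w : Fin r → M)
    (hw : ∀ k, w k ∈ Q) :
    star (∑ k, Λ.e k * w k) = ∑ k, Λ.e k * star (w k) := by
  rw [star_sum]
  refine Finset.sum_congr rfl fun k _ => ?_
  rw [star_mul, Λ.sa, hT.comm (Λ.e k) (Λ.mem k) (star (w k)) (star_mem (hw k))]

theorem starmul (hT : Tens τ P Q) {r : ℕ} (Λ : Prt τ P r) (w : Fin r → M)
    (hw : ∀ k, w k ∈ Q) :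
    star (∑ k, Λ.e k * w k) * (∑ k, Λ.e k * w k) = ∑ k, Λ.e k * (star (w k) * w k) := by
  rw [starsum hT Λ w hw]
  exact mulsum hT Λ (fun k => star (w k)) w fun k => star_mem (hw k)

theorem tau_e (hT : Tens τ P Q) {r : ℕ} (Λ : Prt τ P r) (k : Fin r) :
    τ (Λ.e k) = ((n2 τ (Λ.e k) ^ 2 : ℝ) : ℂ) := by
  obtain ⟨_, _, hsq, _⟩ := t_BAS M τ hT.tr
  rw [hsq, Λ.sa, Λ.mul, if_pos rfl]

theorem norm_le (hT : Tens τ P Q) {r : ℕ} (Λ : Prt τ P r) (w : Fin r → M)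
    (hw : ∀ k, w k ∈ Q) (h1 : ∀ k, ‖w k‖ ≤ 1) : ‖∑ k, Λ.e k * w k‖ ≤ 1 := by
  letI := CStarAlgebra.spectralOrder M
  letI := CStarAlgebra.spectralOrderedRing M
  set X := ∑ k, Λ.e k * w k with hX
  have h2 : star X * X ≤ 1 := by
    rw [hX, starmul hT Λ w hw, ← Λ.sum]
    refine Finset.sum_le_sum fun k _ => ?_
    have h3 : star (w k) * w k ≤ 1 := by
      rw [← CStarAlgebra.norm_le_one_iff_of_nonneg _ (star_mul_self_nonneg (w k)),
        CStarRing.norm_star_mul_self]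
      exact mul_le_one₀ (h1 k) (norm_nonneg _) (h1 k)
    have h4 : 0 ≤ star (Λ.e k) * (1 - star (w k) * w k) * Λ.e k :=
      star_left_conjugate_nonneg (sub_nonneg.mpr h3) _
    have h5 : star (Λ.e k) * (1 - star (w k) * w k) * Λ.e k =
        Λ.e k - Λ.e k * (star (w k) * w k) := by
      have hc := hT.comm (Λ.e k) (Λ.mem k) (star (w k) * w k) (mul_mem (star_mem (hw k)) (hw k))
      have he : Λ.e k * Λ.e k = Λ.e k := by rw [Λ.mul, if_pos rfl]
      rw [Λ.sa, mul_sub, mul_one, sub_mul, he, mul_assoc, ← hc, ← mul_assoc, he]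
    rw [h5] at h4
    exact sub_nonneg.mp h4
  rw [← CStarAlgebra.norm_le_one_iff_of_nonneg _ (star_mul_self_nonneg X),
    CStarRing.norm_star_mul_self] at h2
  by_contra h
  push Not at h
  nlinarith

end SUM

open SUM in
theorem t_SUM : N_SUM.{u} := by
  intro M _ τ P Q hT r Λ
  have hte : ∀ k, τ (Λ.e k) = (((τ (Λ.e k)).re : ℝ) : ℂ) := by
    intro k
    rw [tau_e hT Λ k, Complex.ofReal_re]
  refine ⟨?_, ?_, ?_⟩
  · intro k
    have h1 := tau_e hT Λ k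
    have h2 : (τ (Λ.e k)).re = n2 τ (Λ.e k) ^ 2 := by rw [h1, Complex.ofReal_re]
    have h3 : n2 τ (Λ.e k) ^ 2 ≠ 0 := by
      intro h0
      apply Λ.ne k
      rw [h1, h0, Complex.ofReal_zero]
    rw [h2]
    exact lt_of_le_of_ne (sq_nonneg _) (Ne.symm h3)
  · rw [← Complex.re_sum, ← map_sum, Λ.sum, hT.tr.one, Complex.one_re]
  · intro w hw
    refine ⟨?_, norm_le hT Λ w hw, ?_, ?_⟩
    · obtain ⟨_, _, hsq, _⟩ := t_BAS M τ hT.tr
      have h1 : ((n2 τ (∑ k, Λ.e k * w k) ^ 2 : ℝ) : ℂ) =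
          ((∑ k, (τ (Λ.e k)).re * n2 τ (w k) ^ 2 : ℝ) : ℂ) := by
        rw [hsq, starmul hT Λ w hw, map_sum, Complex.ofReal_sum]
        refine Finset.sum_congr rfl fun k _ => ?_
        rw [hT.mul (Λ.e k) (Λ.mem k) _ (mul_mem (star_mem (hw k)) (hw k)), ← hsq,
          Complex.ofReal_mul, ← hte k]
      exact_mod_cast h1
    · intro b hb
      rw [Finset.sum_mul, Finset.mul_sum, ← Finset.sum_sub_distrib]
      refine Finset.sum_congr rfl fun k _ => ?_
      rw [← mul_assoc b, ← hT.comm (Λ.e k) (Λ.mem k) b hb, mul_sub, mul_assoc, mul_assoc]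
    · intro v hv
      rw [mulsum hT Λ w v hw, mulsum hT Λ v w hv, ← Finset.sum_sub_distrib]
      refine Finset.sum_congr rfl fun k _ => ?_
      rw [mul_sub]

end H215MT
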