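import Pool.Agent.H215R2.MT.FIN
import Pool.Agent.H215R2.MT.GRAM
import Pool.Agent.H215R2.MT.SUM
import Pool.Agent.H215R2.MT.EXP
import Pool.Agent.H215R2.MT.ALG
import Pool.Agent.H215R2.MT.GAP
import Pool.Agent.H215R2.MT.CNT

/-! Project MT: assembly -/

namespace H215MT

open H215EZ

universe u

theorem all_FIN : N_FIN.{u} :=
  t_FIN t_BAS.{u} t_SUM.{u} (t_GAP (t_ALG t_GRAM.{u}) (t_EXP t_SUM.{u})) t_CNT

end H215MT
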