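import Pool.Agent.H215R2.EZ.BAS

/-!
Project MT: McDuff property of tensor factors.  Definitions and statements of the tasks.
`t_X : N_X` goes to `Pool/Agent/H215R2/MT/X.lean`.
-/

namespace H215MT

open H215EZ

universe u

/-- the central sequence algebra of `(N, τ)` is non-commutative (finite form) -/
def McD {M : Type u} [CStarAlgebra M] (τ : M →ₗ[ℂ] ℂ) (N : Set M) : Prop :=
  ∃ c : ℝ, 0 < c ∧ ∀ (F : Finset M) (ε : ℝ), (∀ a ∈ F, a ∈ N) → 0 < ε →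
    ∃ x ∈ N, ∃ y ∈ N, ‖x‖ ≤ 1 ∧ ‖y‖ ≤ 1 ∧
      (∀ a ∈ F, n2 τ (x * a - a * x) ≤ ε ∧ n2 τ (y * a - a * y) ≤ ε) ∧ c ≤ n2 τ (x * y - y * x)

/-- finite partition of unity by projections of `P` of positive trace -/
structure Prt {M : Type u} [CStarAlgebra M] (τ : M →ₗ[ℂ] ℂ) (P : StarSubalgebra ℂ M) (r : ℕ) where
  e : Fin r → M
  mem : ∀ k, e k ∈ P
  sa : ∀ k, star (e k) = e k
  mul : ∀ k l, e k * e l = if k = l then e k else 0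
  sum : ∑ k, e k = 1
  ne : ∀ k, τ (e k) ≠ 0

/-- trace preserving expectation onto the span of the partition -/
noncomputable def Prt.ex {M : Type u} [CStarAlgebra M] {τ : M →ₗ[ℂ] ℂ} {P : StarSubalgebra ℂ M}
    {r : ℕ} (Λ : Prt τ P r) (p : M) : M := ∑ k, (τ (Λ.e k * p) / τ (Λ.e k)) • Λ.e k

/-- `M` is the tensor product of `P` and `Q`: they commute, the trace is multiplicative, they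
generate `M` in the 2-norm, and the slice maps of the states `τ (e ·) / τ e` exist -/
structure Tens {M : Type u} [CStarAlgebra M] (τ : M →ₗ[ℂ] ℂ) (P Q : StarSubalgebra ℂ M) :
    Prop where
  tr : IsTrSt τ
  comm : ∀ p ∈ P, ∀ q ∈ Q, p * q = q * p
  mul : ∀ p ∈ P, ∀ q ∈ Q, τ (p * q) = τ p * τ q
  dense : ∀ (x : M) (ε : ℝ), 0 < ε → ∃ (m : ℕ) (p q : Fin m → M), (∀ j, p j ∈ P) ∧
    (∀ j, q j ∈ Q) ∧ n2 τ (x - ∑ j, p j * q j) ≤ ε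
  slice : ∀ e ∈ P, star e = e → e * e = e → τ e ≠ 0 → ∃ S : M →ₗ[ℂ] M,
    (∀ x, S x ∈ Q ∧ ‖S x‖ ≤ ‖x‖ ∧ (τ e).re * n2 τ (S x) ^ 2 ≤ n2 τ (e * x) ^ 2) ∧
    ∀ p ∈ P, ∀ q ∈ Q, S (p * q) = (τ (e * p) / τ e) • q

/-- abelian spectral gap: elements of `P` with small commutators are close to abelian
subalgebras generated by finite partitions, in the sense of quadratic forms -/
def AGap {M : Type u} [CStarAlgebra M] (τ : M →ₗ[ℂ] ℂ) (P : StarSubalgebra ℂ M) : Prop :=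
  ∀ κ : ℝ, 0 < κ → ∃ (F : Finset M) (C : ℝ), (∀ a ∈ F, a ∈ P) ∧ 0 ≤ C ∧
    ∀ (Φ : Finset M) (η : ℝ), (∀ p ∈ Φ, p ∈ P) → 0 < η → ∃ (r : ℕ) (Λ : Prt τ P r),
      ∀ p ∈ Φ, n2 τ (p - Λ.ex p) ^ 2 ≤
        C * ∑ a ∈ F, n2 τ (a * p - p * a) ^ 2 + κ * n2 τ p ^ 2 + η

def N_GRAM : Prop := ∀ (M : Type u) [CStarAlgebra M] (τ : M →ₗ[ℂ] ℂ) (P Q : StarSubalgebra ℂ M),
  Tens τ P Q → ∀ (m : ℕ) (p q : Fin m → M), (∀ j, p j ∈ P) → (∀ j, q j ∈ Q) →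
  ∃ p' : Fin m → M, (∀ k, p' k ∈ P) ∧ ∀ T : M →ₗ[ℂ] M, (∀ z ∈ P, T z ∈ P) →
    n2 τ (∑ j, T (p j) * q j) ^ 2 = ∑ k, n2 τ (T (p' k)) ^ 2

def N_SUM : Prop := ∀ (M : Type u) [CStarAlgebra M] (τ : M →ₗ[ℂ] ℂ) (P Q : StarSubalgebra ℂ M),
  Tens τ P Q → ∀ (r : ℕ) (Λ : Prt τ P r),
  (∀ k, 0 < (τ (Λ.e k)).re) ∧ ∑ k, (τ (Λ.e k)).re = 1 ∧
  ∀ w : Fin r → M, (∀ k, w k ∈ Q) →
    n2 τ (∑ k, Λ.e k * w k) ^ 2 = ∑ k, (τ (Λ.e k)).re * n2 τ (w k) ^ 2 ∧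
    ((∀ k, ‖w k‖ ≤ 1) → ‖∑ k, Λ.e k * w k‖ ≤ 1) ∧
    (∀ b ∈ Q, (∑ k, Λ.e k * w k) * b - b * (∑ k, Λ.e k * w k) =
      ∑ k, Λ.e k * (w k * b - b * w k)) ∧
    ∀ v : Fin r → M, (∀ k, v k ∈ Q) →
      (∑ k, Λ.e k * w k) * (∑ k, Λ.e k * v k) - (∑ k, Λ.e k * v k) * (∑ k, Λ.e k * w k) =
        ∑ k, Λ.e k * (w k * v k - v k * w k)

/-- the map of a partition on `M` -/
structure IsEx {M : Type u} [CStarAlgebra M] {τ : M →ₗ[ℂ] ℂ} {P : StarSubalgebra ℂ M}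
    (Q : StarSubalgebra ℂ M) {r : ℕ} (Λ : Prt τ P r) (E : M →ₗ[ℂ] M) : Prop where
  form : ∀ x, ∃ w : Fin r → M, (∀ k, w k ∈ Q ∧ ‖w k‖ ≤ ‖x‖) ∧ E x = ∑ k, Λ.e k * w k
  le : ∀ x, n2 τ (E x) ≤ n2 τ x
  ten : ∀ p ∈ P, ∀ q ∈ Q, E (p * q) = Λ.ex p * q

def N_EXP : Prop := ∀ (M : Type u) [CStarAlgebra M] (τ : M →ₗ[ℂ] ℂ) (P Q : StarSubalgebra ℂ M),
  Tens τ P Q → ∀ (r : ℕ) (Λ : Prt τ P r), ∃ E : M →ₗ[ℂ] M, IsEx Q Λ E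

def N_GAP : Prop := ∀ (M : Type u) [CStarAlgebra M] (τ : M →ₗ[ℂ] ℂ) (P Q : StarSubalgebra ℂ M),
  Tens τ P Q → AGap τ P → ∀ κ : ℝ, 0 < κ → ∃ (F : Finset M) (C : ℝ), (∀ a ∈ F, a ∈ P) ∧ 0 ≤ C ∧
    ∀ (x y : M) (η : ℝ), 0 < η → ∃ (r : ℕ) (Λ : Prt τ P r) (E : M →ₗ[ℂ] M), IsEx Q Λ E ∧
      n2 τ (x - E x) ^ 2 ≤ C * ∑ a ∈ F, n2 τ (a * x - x * a) ^ 2 + κ * n2 τ x ^ 2 + η ∧
      n2 τ (y - E y) ^ 2 ≤ C * ∑ a ∈ F, n2 τ (a * y - y * a) ^ 2 + κ * n2 τ y ^ 2 + η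

/-- algebraic version -/
def N_ALG : Prop := ∀ (M : Type u) [CStarAlgebra M] (τ : M →ₗ[ℂ] ℂ) (P Q : StarSubalgebra ℂ M),
  Tens τ P Q → AGap τ P → ∀ κ : ℝ, 0 < κ → ∃ (F : Finset M) (C : ℝ), (∀ a ∈ F, a ∈ P) ∧ 0 ≤ C ∧
    ∀ (m m' : ℕ) (p q : Fin m → M) (p' q' : Fin m' → M), (∀ j, p j ∈ P) → (∀ j, q j ∈ Q) →
      (∀ j, p' j ∈ P) → (∀ j, q' j ∈ Q) → ∀ η : ℝ, 0 < η → ∃ (r : ℕ) (Λ : Prt τ P r),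
      n2 τ (∑ j, p j * q j - ∑ j, Λ.ex (p j) * q j) ^ 2 ≤
        C * ∑ a ∈ F, n2 τ (a * (∑ j, p j * q j) - (∑ j, p j * q j) * a) ^ 2 +
          κ * n2 τ (∑ j, p j * q j) ^ 2 + η ∧
      n2 τ (∑ j, p' j * q' j - ∑ j, Λ.ex (p' j) * q' j) ^ 2 ≤
        C * ∑ a ∈ F, n2 τ (a * (∑ j, p' j * q' j) - (∑ j, p' j * q' j) * a) ^ 2 +
          κ * n2 τ (∑ j, p' j * q' j) ^ 2 + η

/-- choice of one block -/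
def N_CNT : Prop := ∀ (r : ℕ) (t : Fin r → ℝ) (c : Fin r → ℝ) (D : ℝ) (u : Fin r → ℝ)
  (c₀ ε₀ : ℝ), (∀ k, 0 < t k) → ∑ k, t k = 1 → (∀ k, 0 ≤ c k ∧ c k ≤ 2) → (∀ k, 0 ≤ u k) →
  0 < ε₀ → 0 ≤ c₀ → ∑ k, t k * u k ≤ D → D * 4 < ε₀ ^ 2 * c₀ ^ 2 →
  2 * c₀ ^ 2 ≤ ∑ k, t k * c k ^ 2 → ∃ k, u k < ε₀ ^ 2 ∧ c₀ ≤ c k

def N_FIN : Prop := ∀ (M : Type u) [CStarAlgebra M] (τ : M →ₗ[ℂ] ℂ) (P Q : StarSubalgebra ℂ M),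
  Tens τ P Q → AGap τ P → McD τ (Set.univ : Set M) → McD τ (Q : Set M)

end H215MT
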