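import Pool.Agent.H215R2.MT.Defs

/-! Project MT, task FIN: the main theorem -/

namespace H215MT

open H215EZ

universe u

theorem t_FIN (hBAS : S_BAS.{u}) (hSUM : N_SUM.{u}) (hGAP : N_GAP.{u}) (hCNT : N_CNT) :
    N_FIN.{u} := by
  intro M _ τ P Q hT hG hM
  obtain ⟨_, _, _, hadd, hsmul, _, hle, hl, hr, _, _⟩ := hBAS M τ hT.tr
  have hcomm : ∀ a x : M, n2 τ (a * x - x * a) = n2 τ (x * a - a * x) := by
    intro a x
    have h := hsmul (-1) (x * a - a * x)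
    have e1 : (-1 : ℂ) • (x * a - a * x) = a * x - x * a := by
      rw [neg_smul, one_smul, neg_sub]
    rw [e1] at h
    rw [h]
    simp
  have hneg : ∀ x : M, n2 τ (-x) = n2 τ x := by
    intro x
    have h := hsmul (-1) x
    rw [neg_smul, one_smul] at h
    rw [h]
    simp
  have hnn : ∀ x : M, 0 ≤ n2 τ x := fun x => Real.sqrt_nonneg _
  obtain ⟨c, hc, hM⟩ := hM
  refine ⟨c / 4, by positivity, ?_⟩
  intro F₂ ε₀ hF₂ hε₀
  obtain ⟨B, hB0, hB⟩ : ∃ B : ℝ, 0 ≤ B ∧ ∀ b ∈ F₂, ‖b‖ ≤ B :=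
    ⟨∑ b ∈ F₂, ‖b‖, Finset.sum_nonneg fun _ _ => norm_nonneg _,
      fun b hb => Finset.single_le_sum (f := fun b : M => ‖b‖) (fun _ _ => norm_nonneg _) hb⟩
  obtain ⟨n, hn⟩ : ∃ n : ℝ, n = (F₂.card : ℝ) := ⟨_, rfl⟩
  have hn0 : 0 ≤ n := by rw [hn]; positivity
  obtain ⟨r, hrd⟩ : ∃ r : ℝ, r = min (c / 8) (ε₀ * (c / 4) / (4 * (n + 1) * (1 + 2 * B))) :=
    ⟨_, rfl⟩
  have hr0 : 0 < r := by rw [hrd]; exact lt_min (by positivity) (by positivity)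
  have hr1 : r ≤ c / 8 := by rw [hrd]; exact min_le_left _ _
  have hr2 : 4 * (n + 1) * ((1 + 2 * B) * r) ≤ ε₀ * (c / 4) := by
    have h1 : r ≤ ε₀ * (c / 4) / (4 * (n + 1) * (1 + 2 * B)) := by rw [hrd]; exact min_le_right _ _
    rw [le_div_iff₀ (by positivity)] at h1
    linarith
  have hr3 : (2 * n * ((1 + 2 * B) * r) ^ 2) * 4 < ε₀ ^ 2 * (c / 4) ^ 2 := by
    have h1 : (4 * (n + 1) * ((1 + 2 * B) * r)) ^ 2 ≤ (ε₀ * (c / 4)) ^ 2 :=
      pow_le_pow_left₀ (by positivity) hr2 2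
    have h2 : 0 < ((1 + 2 * B) * r) ^ 2 := by positivity
    nlinarith
  obtain ⟨F, C, hF, hC, hgap⟩ := hGAP M τ P Q hT hG (r ^ 2 / 4) (by positivity)
  obtain ⟨m, hm⟩ : ∃ m : ℝ, m = C * (F.card : ℝ) := ⟨_, rfl⟩
  have hm0 : 0 ≤ m := by rw [hm]; positivity
  obtain ⟨ε, hεd⟩ : ∃ ε : ℝ, ε = min r (r / (2 * (m + 1))) := ⟨_, rfl⟩
  have hε : 0 < ε := by rw [hεd]; exact lt_min hr0 (by positivity)
  have hεr : ε ≤ r := by rw [hεd]; exact min_le_left _ _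
  have hε2 : m * ε ^ 2 ≤ r ^ 2 / 4 := by
    have h1 : ε ≤ r / (2 * (m + 1)) := by rw [hεd]; exact min_le_right _ _
    rw [le_div_iff₀ (by positivity)] at h1
    have h2 : (ε * (2 * (m + 1))) ^ 2 ≤ r ^ 2 := pow_le_pow_left₀ (by positivity) h1 2
    have h3 : 0 < ε ^ 2 := by positivity
    nlinarith [mul_nonneg hm0 hm0, mul_nonneg (mul_nonneg hm0 hm0) h3.le, mul_nonneg hm0 h3.le]
  classical
  obtain ⟨x, -, y, -, hx1, hy1, hxy, hcxy⟩ := hM (F ∪ F₂) ε (fun a _ => Set.mem_univ a) hε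
  obtain ⟨R, Λ, E, hE, hgx, hgy⟩ := hgap x y (r ^ 2 / 4) (by positivity)
  have key : ∀ z : M, ‖z‖ ≤ 1 → (∀ a ∈ F ∪ F₂, n2 τ (z * a - a * z) ≤ ε) →
      n2 τ (z - E z) ^ 2 ≤ C * ∑ a ∈ F, n2 τ (a * z - z * a) ^ 2 + r ^ 2 / 4 * n2 τ z ^ 2 +
        r ^ 2 / 4 → n2 τ (z - E z) ≤ r ∧
        ∀ b ∈ F₂, n2 τ (E z * b - b * E z) ≤ (1 + 2 * B) * r := by
    intro z hz hza hgz
    have h1 : ∑ a ∈ F, n2 τ (a * z - z * a) ^ 2 ≤ ∑ a ∈ F, ε ^ 2 := by
      apply Finset.sum_le_sum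
      intro a ha
      rw [hcomm a z]
      exact pow_le_pow_left₀ (hnn _) (hza a (Finset.mem_union_left _ ha)) 2
    rw [Finset.sum_const, nsmul_eq_mul] at h1
    have h2 : C * ∑ a ∈ F, n2 τ (a * z - z * a) ^ 2 ≤ m * ε ^ 2 := by
      calc C * ∑ a ∈ F, n2 τ (a * z - z * a) ^ 2 ≤ C * (F.card * ε ^ 2) :=
            mul_le_mul_of_nonneg_left h1 hC
        _ = m * ε ^ 2 := by rw [hm]; ring
    have h3 : n2 τ z ^ 2 ≤ 1 := by
      have := (hle z).trans hz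
      have h0 := hnn z
      nlinarith
    have h4 : n2 τ (z - E z) ^ 2 ≤ r ^ 2 := by nlinarith [sq_nonneg r]
    have h5 : n2 τ (z - E z) ≤ r := by
      by_contra hcon
      push Not at hcon
      have : r ^ 2 < n2 τ (z - E z) ^ 2 := by
        have h0 := hnn (z - E z)
        nlinarith
      linarith
    refine ⟨h5, fun b hb => ?_⟩
    have e1 : E z * b - b * E z = (z * b - b * z) + (-((z - E z) * b) + b * (z - E z)) := by
      noncomm_ring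
    rw [e1]
    have a1 := hadd (z * b - b * z) (-((z - E z) * b) + b * (z - E z))
    have a2 := hadd (-((z - E z) * b)) (b * (z - E z))
    rw [hneg] at a2
    have a3 := hr b (z - E z)
    have a4 := hl b (z - E z)
    have a5 := hza b (Finset.mem_union_right _ hb)
    have a6 : ‖b‖ * n2 τ (z - E z) ≤ B * r :=
      mul_le_mul (hB b hb) h5 (hnn _) hB0
    linarith
  obtain ⟨hx2, hx3⟩ := key x hx1 (fun a ha => (hxy a ha).1) hgx
  obtain ⟨hy2, hy3⟩ := key y hy1 (fun a ha => (hxy a ha).2) hgy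
  obtain ⟨ht0, ht1, hsum⟩ := hSUM M τ P Q hT R Λ
  obtain ⟨w, hw, hEx⟩ := hE.form x
  obtain ⟨v, hv, hEy⟩ := hE.form y
  obtain ⟨_, hwn, hwb, hwv⟩ := hsum w fun k => (hw k).1
  obtain ⟨_, hvn, hvb, _⟩ := hsum v fun k => (hv k).1
  have hEx1 : ‖E x‖ ≤ 1 := by rw [hEx]; exact hwn fun k => (hw k).2.trans hx1
  have hwQ : ∀ k, w k ∈ Q := fun k => (hw k).1
  have hvQ : ∀ k, v k ∈ Q := fun k => (hv k).1
  -- the commutators with `b`
  have hbx : ∀ b ∈ F₂, ∑ k, (τ (Λ.e k)).re * n2 τ (w k * b - b * w k) ^ 2 ≤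
      ((1 + 2 * B) * r) ^ 2 := by
    intro b hb
    have hbQ : b ∈ Q := hF₂ b hb
    have h1 := (hsum (fun k => w k * b - b * w k) fun k =>
      Q.sub_mem (Q.mul_mem (hwQ k) hbQ) (Q.mul_mem hbQ (hwQ k))).1
    rw [← h1, ← hwb b hbQ, ← hEx]
    exact pow_le_pow_left₀ (hnn _) (hx3 b hb) 2
  have hby : ∀ b ∈ F₂, ∑ k, (τ (Λ.e k)).re * n2 τ (v k * b - b * v k) ^ 2 ≤
      ((1 + 2 * B) * r) ^ 2 := by
    intro b hb
    have hbQ : b ∈ Q := hF₂ b hb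
    have h1 := (hsum (fun k => v k * b - b * v k) fun k =>
      Q.sub_mem (Q.mul_mem (hvQ k) hbQ) (Q.mul_mem hbQ (hvQ k))).1
    rw [← h1, ← hvb b hbQ, ← hEy]
    exact pow_le_pow_left₀ (hnn _) (hy3 b hb) 2
  -- the commutator of `E x` and `E y`
  have hcE : c / 2 ≤ n2 τ (E x * E y - E y * E x) := by
    have e1 : x * y - y * x = (E x * E y - E y * E x) + (((x - E x) * y + E x * (y - E y)) +
        (-(y * (x - E x)) + -((y - E y) * E x))) := by noncomm_ring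
    have a1 := hadd (E x * E y - E y * E x) (((x - E x) * y + E x * (y - E y)) +
        (-(y * (x - E x)) + -((y - E y) * E x)))
    rw [← e1] at a1
    have a2 := hadd ((x - E x) * y + E x * (y - E y)) (-(y * (x - E x)) + -((y - E y) * E x))
    have a3 := hadd ((x - E x) * y) (E x * (y - E y))
    have a4 := hadd (-(y * (x - E x))) (-((y - E y) * E x))
    rw [hneg, hneg] at a4
    have b1 := hr y (x - E x)
    have b2 := hl (E x) (y - E y)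
    have b3 := hl y (x - E x)
    have b4 := hr (E x) (y - E y)
    have c1 : ‖y‖ * n2 τ (x - E x) ≤ 1 * r := mul_le_mul hy1 hx2 (hnn _) zero_le_one
    have c2 : ‖E x‖ * n2 τ (y - E y) ≤ 1 * r := mul_le_mul hEx1 hy2 (hnn _) zero_le_one
    linarith
  have hvw : ∑ k, (τ (Λ.e k)).re * n2 τ (w k * v k - v k * w k) ^ 2 =
      n2 τ (E x * E y - E y * E x) ^ 2 := by
    have h1 := (hsum (fun k => w k * v k - v k * w k) fun k =>
      Q.sub_mem (Q.mul_mem (hwQ k) (hvQ k)) (Q.mul_mem (hvQ k) (hwQ k))).1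
    rw [← h1, ← hwv v hvQ, ← hEx, ← hEy]
  have hD : ∑ k, (τ (Λ.e k)).re * (∑ b ∈ F₂, (n2 τ (w k * b - b * w k) ^ 2 +
      n2 τ (v k * b - b * v k) ^ 2)) ≤ 2 * n * ((1 + 2 * B) * r) ^ 2 := by
    have e1 : ∑ k, (τ (Λ.e k)).re * (∑ b ∈ F₂, (n2 τ (w k * b - b * w k) ^ 2 +
        n2 τ (v k * b - b * v k) ^ 2)) = ∑ b ∈ F₂,
        (∑ k, (τ (Λ.e k)).re * n2 τ (w k * b - b * w k) ^ 2 +
          ∑ k, (τ (Λ.e k)).re * n2 τ (v k * b - b * v k) ^ 2) := by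
      simp only [Finset.mul_sum]
      rw [Finset.sum_comm]
      apply Finset.sum_congr rfl
      intro b _
      rw [← Finset.sum_add_distrib]
      apply Finset.sum_congr rfl
      intro k _
      ring
    rw [e1]
    calc _ ≤ ∑ b ∈ F₂, (2 * ((1 + 2 * B) * r) ^ 2) := by
          apply Finset.sum_le_sum
          intro b hb
          have h1 := hbx b hb
          have h2 := hby b hb
          linarith
      _ = 2 * n * ((1 + 2 * B) * r) ^ 2 := by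
          rw [Finset.sum_const, nsmul_eq_mul, hn]; ring
  obtain ⟨k, hk1, hk2⟩ := hCNT R (fun k => (τ (Λ.e k)).re)
    (fun k => n2 τ (w k * v k - v k * w k)) (2 * n * ((1 + 2 * B) * r) ^ 2)
    (fun k => ∑ b ∈ F₂, (n2 τ (w k * b - b * w k) ^ 2 + n2 τ (v k * b - b * v k) ^ 2))
    (c / 4) ε₀ ht0 ht1 (fun k => ⟨hnn _, by
      have h1 := hle (w k * v k - v k * w k)
      have h2 : ‖w k * v k - v k * w k‖ ≤ ‖w k * v k‖ + ‖v k * w k‖ := norm_sub_le _ _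
      have h3 : ‖w k * v k‖ ≤ ‖w k‖ * ‖v k‖ := norm_mul_le _ _
      have h4 : ‖v k * w k‖ ≤ ‖v k‖ * ‖w k‖ := norm_mul_le _ _
      have h5 : ‖w k‖ * ‖v k‖ ≤ 1 * 1 :=
        mul_le_mul ((hw k).2.trans hx1) ((hv k).2.trans hy1) (norm_nonneg _) zero_le_one
      have h6 : ‖v k‖ * ‖w k‖ = ‖w k‖ * ‖v k‖ := mul_comm _ _
      linarith⟩)
    (fun k => Finset.sum_nonneg fun _ _ => by positivity) hε₀ (by positivity) hD hr3 (by
      rw [hvw]
      nlinarith [hcE, hc])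
  refine ⟨w k, hwQ k, v k, hvQ k, (hw k).2.trans hx1, (hv k).2.trans hy1, fun a ha => ?_, hk2⟩
  have h1 : n2 τ (w k * a - a * w k) ^ 2 + n2 τ (v k * a - a * v k) ^ 2 ≤
      ∑ b ∈ F₂, (n2 τ (w k * b - b * w k) ^ 2 + n2 τ (v k * b - b * v k) ^ 2) :=
    Finset.single_le_sum (f := fun b => n2 τ (w k * b - b * w k) ^ 2 +
      n2 τ (v k * b - b * v k) ^ 2) (fun _ _ => by positivity) ha
  have h2 : n2 τ (w k * a - a * w k) ^ 2 + n2 τ (v k * a - a * v k) ^ 2 < ε₀ ^ 2 := h1.trans_lt hk1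
  have h3 := sq_nonneg (n2 τ (w k * a - a * w k))
  have h4 := sq_nonneg (n2 τ (v k * a - a * v k))
  constructor
  · exact le_of_lt (lt_of_pow_lt_pow_left₀ 2 hε₀.le (by linarith))
  · exact le_of_lt (lt_of_pow_lt_pow_left₀ 2 hε₀.le (by linarith))

end H215MT
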